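import Pool.Agent.MP_429080_ag.H91.Top

namespace Pool.Agent.Results.MP_429080_ag.Components

open Pool.Agent.MP_429080_ag MvPolynomial

/-- Let `X` be smooth and irreducible of dimension `n`, and `x` a general point. Let `Z` be a union of
irreducible components of the variety of lines through `x`, each of dimension at least
`(n - 1) / 2`. If the dimension `a` of `Z` exceeds twice its codimension `m` in its linear span, then
`Z` is a complete intersection. -/
theorem result {σ : Type} [Fintype σ] (C : Set (σ → ℂ)) (n : ℕ) (hC : IsSmoothCone C n) :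
    General C fun x => ∀ φ : (Fin n → ℂ) →ₗ[ℂ] (σ → ℂ), IsFrame C x φ →
      ∀ (Z : Set (Fin n → ℂ)) (a m : ℕ), (∀ p ∈ (vanishingIdeal ℂ Z).minimalPrimes,
        p ∈ (vanishingIdeal ℂ (lines C x φ)).minimalPrimes ∧ ∃ b : ℕ,
          ringKrullDim (MvPolynomial (Fin n) ℂ ⧸ p) = b + 1 ∧ n ≤ 2 * b + 1) →
        affDim Z = a + 1 → Module.finrank ℂ (Submodule.span ℂ Z) = a + m + 1 → 2 * m < a →
          ∃ k : ℕ, a + 1 + k = n ∧ IsCI Z k :=
  H91.main C n hC

end Pool.Agent.Results.MP_429080_ag.Components
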