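import Pool.Agent.MP_429080_ag.Segre

namespace Pool.Agent.Results.MP_429080_ag.SegreCounter

open Pool.Agent.MP_429080_ag

/-- There is a smooth irreducible non-degenerate fivefold in projective nine-space such that at
every point the variety of lines has dimension three, spans the projective tangent four-space and
is not the zero set of one polynomial. -/
theorem result : ∃ C : Set (Fin 2 × Fin 5 → ℂ), IsSmoothCone C 5 ∧ Submodule.span ℂ C = ⊤ ∧
    ∀ x ∈ C, x ≠ 0 →
      (∃ φ : (Fin 5 → ℂ) →ₗ[ℂ] (Fin 2 × Fin 5 → ℂ), IsFrame C x φ) ∧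
      ∀ φ : (Fin 5 → ℂ) →ₗ[ℂ] (Fin 2 × Fin 5 → ℂ), IsFrame C x φ →
        affDim (lines C x φ) = 4 ∧ Submodule.span ℂ (lines C x φ) = ⊤ ∧
          ¬ ∃ f : MvPolynomial (Fin 5) ℂ, {w | MvPolynomial.eval w f = 0} = lines C x φ := by
  refine ⟨segre, segre_smooth, segre_span, fun x hx h0 => ⟨exists_frame hx h0, fun φ hφ => ?_⟩⟩
  obtain ⟨l, w₀, h1, h2⟩ := lines_eq hx h0 hφ
  exact hyperplane_line h1 h2

end Pool.Agent.Results.MP_429080_ag.SegreCounter
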