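import Pool.Agent.MP_429080_ag.CI.Main

namespace Pool.Agent.Results.MP_429080_ag.SmallCodim

open Pool.Agent.MP_429080_ag MvPolynomial

/-- Let `X` be smooth, irreducible and non-degenerate of dimension `n` and codimension `c`, and let
the variety of lines through a general point be irreducible of codimension `k` in the projective
tangent space. If `3 k + 1 ≤ n` and `c + 2 k ≤ n`, it is a complete intersection. -/
theorem result {σ : Type} [Fintype σ] (C : Set (σ → ℂ)) (n c k : ℕ) (hC : IsSmoothCone C n)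
    (hs : Submodule.span ℂ C = ⊤) (hc : Fintype.card σ = n + 1 + c)
    (hL : General C fun x => ∀ φ : (Fin n → ℂ) →ₗ[ℂ] (σ → ℂ), IsFrame C x φ →
      (vanishingIdeal ℂ (lines C x φ)).IsPrime ∧ affDim (lines C x φ) + k = n)
    (h3 : 3 * k + 1 ≤ n) (h2 : c + 2 * k ≤ n) :
    General C fun x => ∀ φ : (Fin n → ℂ) →ₗ[ℂ] (σ → ℂ), IsFrame C x φ → IsCI (lines C x φ) k :=
  H26.thmB hC hs hc hL h3 h2

end Pool.Agent.Results.MP_429080_ag.SmallCodim
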